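import Mathlib

/-!
A finite-dimensional Banach algebra whose diagonal ideal is idempotent
but which is not weakly amenable: the algebra of two by two matrices over the dual numbers.
-/

namespace Pool.Agent.Results.MP_ae31bd_an.Disproof

universe u

noncomputable section

section Definitions

/-- `β : X × Y → Z` is a bounded bilinear map. -/
def BddBilin {X Y Z : Type u} [NormedAddCommGroup X] [NormedSpace ℂ X]
    [NormedAddCommGroup Y] [NormedSpace ℂ Y] [NormedAddCommGroup Z] [NormedSpace ℂ Z]
    (β : X → Y → Z) : Prop :=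
  IsBoundedBilinearMap ℂ (fun p : X × Y => β p.1 p.2)

/-- The Banach space `E` with the bounded bilinear map `t : X × Y → E` is the (completed)
projective tensor product `X ⊗̂ Y`: every bounded bilinear map from `X × Y` to a Banach space
factors through `t` by a unique bounded linear map. -/
def IsProjTensor {X Y E : Type u} [NormedAddCommGroup X] [NormedSpace ℂ X]
    [NormedAddCommGroup Y] [NormedSpace ℂ Y] [NormedAddCommGroup E] [NormedSpace ℂ E]
    (t : X → Y → E) : Prop :=
  BddBilin t ∧ ∀ (Z : Type u) [NormedAddCommGroup Z] [NormedSpace ℂ Z] [CompleteSpace Z]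
    (β : X → Y → Z), BddBilin β →
      ∃! φ : E → Z, IsBoundedLinearMap ℂ φ ∧ ∀ x y, φ (t x y) = β x y

variable (A : Type u) [NonUnitalNormedRing A] [NormedSpace ℂ A]
  [IsScalarTower ℂ A A] [SMulCommClass ℂ A A]

/-- A Banach algebra `A` (unital or not) is weakly amenable if every bounded derivation
`D : A → A*`, that is `D (a b) = a • D b + D a • b` with `(a • f) c = f (c a)` and
`(f • b) c = f (b c)`, is inner: `D a = a • f - f • a` for some `f` in `A*`.
A bounded linear map `D : A → A*` is given as the bounded bilinear form `(a, c) ↦ D a c`. -/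
def WeaklyAmenable : Prop :=
  ∀ D : A → A → ℂ, IsBoundedBilinearMap ℂ (fun p : A × A => D p.1 p.2) →
    (∀ a b c : A, D (a * b) c = D b (c * a) + D a (b * c)) →
    ∃ f : A → ℂ, IsBoundedLinearMap ℂ f ∧ ∀ a c : A, D a c = f (c * a) - f (a * c)

/-- The unitization `A₊` of `A` with the sum norm; it is a unital Banach algebra. -/
abbrev APlus : Type u := WithLp 1 (Unitization ℂ A)

/-- The enveloping algebra `A^env = A₊ ⊗̂ A₊ᵒᵖ`, given up to unique isomorphism:
a Banach space `E` which, with the bounded bilinear map `tmul`, is the completed projective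
tensor product of `A₊` with itself, the bounded bilinear product `mul`
with `(a ⊗ b) (c ⊗ d) = a c ⊗ d b`, and the bounded linear map `proj` with
`proj (a ⊗ b) = a b`. -/
structure Env where
  E : Type u
  [normedAddCommGroup : NormedAddCommGroup E]
  [normedSpace : NormedSpace ℂ E]
  [completeSpace : CompleteSpace E]
  tmul : APlus A → APlus A → E
  isProjTensor : IsProjTensor tmul
  mul : E → E → E
  bddBilin_mul : BddBilin mul
  mul_tmul : ∀ a b c d : APlus A, mul (tmul a b) (tmul c d) = tmul (a * c) (d * b)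
  proj : E → APlus A
  bddLinear_proj : IsBoundedLinearMap ℂ proj
  proj_tmul : ∀ a b : APlus A, proj (tmul a b) = a * b

attribute [instance] Env.normedAddCommGroup Env.normedSpace Env.completeSpace

variable {A}

/-- The diagonal ideal `I^Δ`, the kernel of `proj`. -/
def Env.diagonalIdeal (M : Env A) : Set M.E := {x | M.proj x = 0}

/-- The diagonal ideal is idempotent: it equals the closed linear span of the products `x y`
of its elements. -/
def Env.DiagonalIdempotent (M : Env A) : Prop :=
  closure (Submodule.span ℂ {w : M.E | ∃ x ∈ M.diagonalIdeal, ∃ y ∈ M.diagonalIdeal,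
    w = M.mul x y} : Set M.E) = M.diagonalIdeal

end Definitions

section Linear

variable (A : Type u) [NonUnitalNormedRing A] [NormedSpace ℂ A]
  [IsScalarTower ℂ A A] [SMulCommClass ℂ A A]

/-- A copy of `A₊` used in the proofs. -/
def AP : Type u := WithLp 1 (Unitization ℂ A)

instance : NormedRing (AP A) := inferInstanceAs (NormedRing (WithLp 1 (Unitization ℂ A)))

instance : NormedAlgebra ℂ (AP A) :=
  inferInstanceAs (NormedAlgebra ℂ (WithLp 1 (Unitization ℂ A)))

instance [CompleteSpace A] : CompleteSpace (AP A) :=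
  inferInstanceAs (CompleteSpace (WithLp 1 (Unitization ℂ A)))

/-- The same data as `Env`, with bundled bounded maps; used in the proofs only. -/
structure EnvL where
  E : Type u
  [normedAddCommGroup : NormedAddCommGroup E]
  [normedSpace : NormedSpace ℂ E]
  [completeSpace : CompleteSpace E]
  tmul : AP A →L[ℂ] AP A →L[ℂ] E
  universal : ∀ (Z : Type u) [NormedAddCommGroup Z] [NormedSpace ℂ Z] [CompleteSpace Z]
    (β : AP A →L[ℂ] AP A →L[ℂ] Z), ∃! φ : E →L[ℂ] Z, ∀ a b, φ (tmul a b) = β a b
  mul : E →L[ℂ] E →L[ℂ] E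
  mul_tmul : ∀ a b c d : AP A, mul (tmul a b) (tmul c d) = tmul (a * c) (d * b)
  proj : E →L[ℂ] AP A
  proj_tmul : ∀ a b : AP A, proj (tmul a b) = a * b

attribute [instance] EnvL.normedAddCommGroup EnvL.normedSpace EnvL.completeSpace

variable {A}

def EnvL.diagonalIdeal (M : EnvL A) : Submodule ℂ M.E := LinearMap.ker M.proj.toLinearMap

def EnvL.DiagonalIdempotent (M : EnvL A) : Prop :=
  (Submodule.span ℂ {w : M.E | ∃ x ∈ M.diagonalIdeal, ∃ y ∈ M.diagonalIdeal,
    w = M.mul x y}).topologicalClosure = M.diagonalIdeal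

lemma clm_isBounded {X Z : Type u} [NormedAddCommGroup X] [NormedSpace ℂ X]
    [NormedAddCommGroup Z] [NormedSpace ℂ Z] (f : X →L[ℂ] Z) :
    IsBoundedLinearMap ℂ (fun x => f x) := f.isBoundedLinearMap

/-- From `Env` to `EnvL`. -/
def Env.toL (M : Env A) : EnvL A where
  E := M.E
  tmul := IsBoundedBilinearMap.toContinuousLinearMap M.isProjTensor.1
  universal := by
    intro Z _ _ _ β
    obtain ⟨φ, ⟨hφ, hφ'⟩, huniq⟩ := M.isProjTensor.2 Z (fun a b => β a b)
      β.isBoundedBilinearMap
    refine ⟨hφ.toContinuousLinearMap, fun a b => hφ' a b, ?_⟩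
    intro ψ hψ
    have := huniq (fun x => ψ x) ⟨ψ.isBoundedLinearMap, fun a b => hψ a b⟩
    ext x
    exact congrFun this x
  mul := IsBoundedBilinearMap.toContinuousLinearMap M.bddBilin_mul
  mul_tmul := M.mul_tmul
  proj := M.bddLinear_proj.toContinuousLinearMap
  proj_tmul := M.proj_tmul

/-- From `EnvL` to `Env`. -/
def EnvL.toEnv (M : EnvL A) : Env A where
  E := M.E
  tmul := fun a b => M.tmul a b
  isProjTensor := by
    refine ⟨M.tmul.isBoundedBilinearMap, ?_⟩
    intro Z _ _ _ β hβ
    obtain ⟨φ, hφ, huniq⟩ := M.universal Z (IsBoundedBilinearMap.toContinuousLinearMap hβ)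
    refine ⟨fun x => φ x, ⟨φ.isBoundedLinearMap, fun a b => hφ a b⟩, ?_⟩
    rintro ψ ⟨hψ, hψ'⟩
    have := huniq hψ.toContinuousLinearMap (fun a b => hψ' a b)
    funext x
    exact DFunLike.congr_fun this x
  mul := fun a b => M.mul a b
  bddBilin_mul := M.mul.isBoundedBilinearMap
  mul_tmul := M.mul_tmul
  proj := fun x => M.proj x
  bddLinear_proj := M.proj.isBoundedLinearMap
  proj_tmul := M.proj_tmul

lemma Env.idempotent_of_toL (M : Env A) (h : M.toL.DiagonalIdempotent) :
    M.DiagonalIdempotent := by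
  have := congrArg (fun S : Submodule ℂ M.toL.E => (S : Set M.toL.E)) h
  exact this

end Linear

section General

variable {A : Type u} [NonUnitalNormedRing A] [NormedSpace ℂ A]
  [IsScalarTower ℂ A A] [SMulCommClass ℂ A A]

lemma mem_diag {M : EnvL A} {y : M.E} : y ∈ M.diagonalIdeal ↔ M.proj y = 0 := Iff.rfl

lemma env_ext (M : EnvL A) {Z : Type u} [NormedAddCommGroup Z] [NormedSpace ℂ Z]
    [CompleteSpace Z] {φ ψ : M.E →L[ℂ] Z}
    (h : ∀ a b, φ (M.tmul a b) = ψ (M.tmul a b)) : φ = ψ := by
  obtain ⟨χ, -, hχ⟩ := M.universal Z ((ContinuousLinearMap.compL ℂ _ _ _ ψ) ∘L M.tmul)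
  rw [hχ φ (fun a b => by simpa using h a b), hχ ψ (fun a b => by simp)]

lemma mul_assoc_tmul (M : EnvL A) (a b c d : AP A) (y : M.E) :
    M.mul (M.tmul a b) (M.mul (M.tmul c d) y) = M.mul (M.tmul (a * c) (d * b)) y := by
  have : (M.mul (M.tmul a b)) ∘L (M.mul (M.tmul c d)) = M.mul (M.tmul (a * c) (d * b)) := by
    apply env_ext
    intro x z
    simp [M.mul_tmul, mul_assoc]
  exact DFunLike.congr_fun this y

variable [CompleteSpace A]

/-- `proj ((a ⊗ b) y) = a (proj y) b`. -/
lemma proj_mul_tmul (M : EnvL A) (a b : AP A) (y : M.E) :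
    M.proj (M.mul (M.tmul a b) y) = a * M.proj y * b := by
  have : M.proj ∘L (M.mul (M.tmul a b)) =
      ((ContinuousLinearMap.mul ℂ (AP A)).flip b) ∘L
        ((ContinuousLinearMap.mul ℂ (AP A)) a) ∘L M.proj := by
    apply env_ext
    intro x z
    simp [M.mul_tmul, M.proj_tmul, mul_assoc]
  simpa using DFunLike.congr_fun this y

/-- The diagonal ideal is a left ideal. -/
lemma mul_mem_diag (M : EnvL A) (x : M.E) {y : M.E} (hy : y ∈ M.diagonalIdeal) :
    M.mul x y ∈ M.diagonalIdeal := by
  rw [mem_diag] at hy ⊢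
  have : M.proj ∘L (M.mul.flip y) = 0 := by
    apply env_ext
    intro a b
    simp [proj_mul_tmul, hy]
  simpa using DFunLike.congr_fun this x

end General


section MatrixUnits

variable {A : Type u} [NormedRing A] [NormedAlgebra ℂ A]

/-- The linear isomorphism of `A₊` with `ℂ × A`. -/
def toProd (A : Type u) [NormedRing A] [NormedAlgebra ℂ A] : AP A ≃ₗ[ℂ] ℂ × A :=
  LinearEquiv.ofBijective
    { toFun := fun x => ((WithLp.ofLp (p := 1) (V := Unitization ℂ A) x).fst,
        (WithLp.ofLp (p := 1) (V := Unitization ℂ A) x).snd)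
      map_add' := fun _ _ => rfl
      map_smul' := fun _ _ => rfl }
    ⟨fun _ _ h => WithLp.ofLp_injective 1
        (Unitization.ext (congrArg Prod.fst h) (congrArg Prod.snd h)),
     fun z => ⟨(WithLp.toLp 1 ⟨z⟩ : WithLp 1 (Unitization ℂ A)), rfl⟩⟩

lemma fst_mul (x y : AP A) : (toProd A (x * y)).1 = (toProd A x).1 * (toProd A y).1 := rfl

lemma snd_mul (x y : AP A) : (toProd A (x * y)).2 =
    (toProd A x).1 • (toProd A y).2 + (toProd A y).1 • (toProd A x).2 +
      (toProd A x).2 * (toProd A y).2 := rfl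

lemma toProd_one : toProd A 1 = (1, 0) := rfl

/-- The embedding of `A` in `A₊`. -/
def ι (a : A) : AP A := (toProd A).symm (0, a)

lemma aplus_ext {x y : AP A} (h1 : (toProd A x).1 = (toProd A y).1)
    (h2 : (toProd A x).2 = (toProd A y).2) : x = y :=
  (toProd A).injective (Prod.ext h1 h2)

lemma ι_mul (a b : A) : ι (a * b) = ι a * ι b := by
  apply aplus_ext
  · simp [ι, fst_mul]
  · simp [ι, snd_mul]

lemma ι_add (a b : A) : ι (a + b) = ι a + ι b := by
  apply aplus_ext <;> simp [ι]

lemma ι_zero : ι (0 : A) = 0 := by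
  apply aplus_ext <;> simp [ι]

/-- The complementary idempotent `q = 1 - ι 1`. -/
def q (A : Type u) [NormedRing A] [NormedAlgebra ℂ A] : AP A := 1 - ι (1 : A)

lemma q_mul_ι (a : A) : q A * ι a = 0 := by
  rw [q, sub_mul, one_mul, ← ι_mul, one_mul, sub_self]

lemma ι_mul_q (a : A) : ι a * q A = 0 := by
  rw [q, mul_sub, mul_one, ← ι_mul, mul_one, sub_self]

/-- The character `A₊ → ℂ`. -/
def chr (A : Type u) [NormedRing A] [NormedAlgebra ℂ A] : AP A →L[ℂ] ℂ :=
  LinearMap.mkContinuous ((LinearMap.fst ℂ ℂ A) ∘ₗ (toProd A).toLinearMap) 1 (fun x => by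
    rw [one_mul]
    have h := WithLp.unitization_norm_def (𝕜 := ℂ) (A := A) x
    exact (le_add_of_nonneg_right (norm_nonneg _)).trans h.ge)

lemma chr_apply (x : AP A) : chr A x = (toProd A x).1 := rfl

lemma chr_mul (x y : AP A) : chr A (x * y) = chr A x * chr A y := by
  simp [chr_apply, fst_mul]

lemma toProd_q : toProd A (q A) = (1, -1) := by
  rw [q, map_sub, toProd_one, ι, LinearEquiv.apply_symm_apply]
  simp

lemma q_mul (x : AP A) : q A * x = chr A x • q A := by
  apply aplus_ext
  · simp [fst_mul, toProd_q, chr_apply]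
  · simp [snd_mul, toProd_q, chr_apply]

lemma mul_q (x : AP A) : x * q A = chr A x • q A := by
  apply aplus_ext
  · simp [fst_mul, toProd_q, chr_apply]
  · simp [snd_mul, toProd_q, chr_apply]

/-- `(q ⊗ q) y = λ(proj y) q ⊗ q`. -/
lemma qq_mul (M : EnvL A) (y : M.E) :
    M.mul (M.tmul (q A) (q A)) y = chr A (M.proj y) • M.tmul (q A) (q A) := by
  have : M.mul (M.tmul (q A) (q A)) =
      (ContinuousLinearMap.smulRight (chr A) (M.tmul (q A) (q A))) ∘L M.proj := by
    apply env_ext
    intro c d
    simp [M.mul_tmul, M.proj_tmul, q_mul, mul_q, chr_mul, smul_smul, mul_comm]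
  simpa using DFunLike.congr_fun this y

variable [CompleteSpace A]

/-- If the unital Banach algebra `A` contains a system of `2 × 2` matrix units then its
diagonal ideal is idempotent. -/
theorem idempotent_of_matrix_units (e : Fin 2 → Fin 2 → A)
    (he : ∀ i j k l, e i j * e k l = if j = k then e i l else 0)
    (he1 : e 0 0 + e 1 1 = 1) (M : EnvL A) : M.DiagonalIdempotent := by
  apply le_antisymm
  · apply Submodule.topologicalClosure_minimal
    · rw [Submodule.span_le]
      rintro w ⟨x, -, y, hy, rfl⟩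
      exact mul_mem_diag M x hy
    · exact ContinuousLinearMap.isClosed_ker M.proj
  · intro y hy
    apply Submodule.le_topologicalClosure
    have hy0 : M.proj y = 0 := hy
    -- products of two elements of the ideal
    have hprod : ∀ a b : AP A, a * b = 0 → ∀ z ∈ M.diagonalIdeal,
        M.mul (M.tmul a b) z ∈ Submodule.span ℂ {w : M.E | ∃ x ∈ M.diagonalIdeal,
          ∃ y ∈ M.diagonalIdeal, w = M.mul x y} := by
      intro a b hab z hz
      apply Submodule.subset_span
      refine ⟨M.tmul a b, ?_, z, hz, rfl⟩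
      rw [mem_diag, M.proj_tmul, hab]
    have hdiag : ∀ i : Fin 2, M.mul (M.tmul (ι (e i i)) (ι (e i i))) y ∈
        Submodule.span ℂ {w : M.E | ∃ x ∈ M.diagonalIdeal,
          ∃ y ∈ M.diagonalIdeal, w = M.mul x y} := by
      intro i
      have h1 : M.mul (M.tmul (ι (e i i)) (ι (e i i))) y =
          M.mul (M.tmul (ι (e i (1 - i))) (ι (e i i)))
            (M.mul (M.tmul (ι (e (1 - i) i)) (ι (e i i))) y) := by
        rw [mul_assoc_tmul, ← ι_mul, ← ι_mul, he, he]
        simp
      rw [h1]
      apply hprod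
      · rw [← ι_mul, he]
        rw [if_neg]
        · exact ι_zero
        · have hne : ∀ i : Fin 2, ¬ (1 - i = i) := by decide
          exact hne i
      · exact mul_mem_diag M _ hy
    have hone : (1 : AP A) = ι (e 0 0) + ι (e 1 1) + q A := by
      rw [← ι_add, he1, q]; abel
    have hy1 : y = M.mul (M.tmul 1 1) y := by
      have : ContinuousLinearMap.id ℂ M.E = M.mul (M.tmul 1 1) := by
        apply env_ext
        intro a b
        simp [M.mul_tmul]
      exact DFunLike.congr_fun this y
    have hqq : M.mul (M.tmul (q A) (q A)) y = 0 := by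
      rw [qq_mul, hy0]; simp
    rw [hy1, hone]
    simp only [map_add, add_apply]
    rw [hqq]
    have z01 : ι (e 0 0) * ι (e 1 1) = 0 := by rw [← ι_mul, he]; simp [ι_zero]
    have z10 : ι (e 1 1) * ι (e 0 0) = 0 := by rw [← ι_mul, he]; simp [ι_zero]
    have m01 := hprod _ _ z01 y hy
    have m10 := hprod _ _ z10 y hy
    have m0q := hprod _ _ (ι_mul_q (e 0 0)) y hy
    have m1q := hprod _ _ (ι_mul_q (e 1 1)) y hy
    have mq0 := hprod _ _ (q_mul_ι (e 0 0)) y hy
    have mq1 := hprod _ _ (q_mul_ι (e 1 1)) y hy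
    have m00 := hdiag 0
    have m11 := hdiag 1
    repeat' first
      | exact Submodule.zero_mem _
      | assumption
      | apply Submodule.add_mem

end MatrixUnits


section FiniteDimensional

open scoped TensorProduct

variable (A : Type) [NormedRing A] [NormedAlgebra ℂ A] [FiniteDimensional ℂ A]

instance : FiniteDimensional ℂ (AP A) := by
  have : FiniteDimensional ℂ (ℂ × A) := inferInstance
  exact Module.Finite.equiv (toProd A).symm

/-- Bounded bilinear maps from bilinear maps in finite dimensions. -/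
def bil {X Y Z : Type} [NormedAddCommGroup X] [NormedSpace ℂ X] [FiniteDimensional ℂ X]
    [NormedAddCommGroup Y] [NormedSpace ℂ Y] [FiniteDimensional ℂ Y]
    [NormedAddCommGroup Z] [NormedSpace ℂ Z] (f : X →ₗ[ℂ] Y →ₗ[ℂ] Z) :
    X →L[ℂ] Y →L[ℂ] Z :=
  LinearMap.toContinuousLinearMap
    ((LinearMap.toContinuousLinearMap : (Y →ₗ[ℂ] Z) ≃ₗ[ℂ] (Y →L[ℂ] Z)).toLinearMap ∘ₗ f)

lemma bil_apply {X Y Z : Type} [NormedAddCommGroup X] [NormedSpace ℂ X] [FiniteDimensional ℂ X]
    [NormedAddCommGroup Y] [NormedSpace ℂ Y] [FiniteDimensional ℂ Y]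
    [NormedAddCommGroup Z] [NormedSpace ℂ Z] (f : X →ₗ[ℂ] Y →ₗ[ℂ] Z) (x : X) (y : Y) :
    bil f x y = f x y := rfl

/-- The bounded bilinear map underlying the product of `A₊`, as a bilinear map. -/
def mulPlus : AP A →ₗ[ℂ] AP A →ₗ[ℂ] AP A :=
  LinearMap.mk₂ ℂ (fun a b => a * b) (fun a b c => add_mul a b c)
    (fun c a b => by simp) (fun a b c => mul_add a b c) (fun c a b => by simp)

lemma mulPlus_apply (a b : AP A) : mulPlus A a b = a * b := rfl

/-- The algebraic enveloping product on `A₊ ⊗ A₊`. -/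
def envMul : (AP A ⊗[ℂ] AP A) →ₗ[ℂ] (AP A ⊗[ℂ] AP A) →ₗ[ℂ]
    (AP A ⊗[ℂ] AP A) :=
  TensorProduct.lift
    (LinearMap.mk₂ ℂ (fun a b => TensorProduct.map (mulPlus A a) ((mulPlus A).flip b))
      (fun a b c => by simp [TensorProduct.map_add_left])
      (fun c a b => by simp [TensorProduct.map_smul_left])
      (fun a b c => by simp [TensorProduct.map_add_right])
      (fun c a b => by simp [TensorProduct.map_smul_right]))

lemma envMul_tmul (a b c d : AP A) :
    envMul A (a ⊗ₜ b) (c ⊗ₜ d) = (a * c) ⊗ₜ (d * b) := by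
  simp [envMul, mulPlus_apply]

/-- Coordinates on `A₊ ⊗ A₊`. -/
def coord : (AP A ⊗[ℂ] AP A) ≃ₗ[ℂ]
    (Fin (Module.finrank ℂ (AP A ⊗[ℂ] AP A)) → ℂ) :=
  (Module.finBasis ℂ (AP A ⊗[ℂ] AP A)).equivFun

/-- The enveloping algebra of a finite-dimensional algebra. -/
def envOfFinite : EnvL A where
  E := Fin (Module.finrank ℂ (AP A ⊗[ℂ] AP A)) → ℂ
  tmul := bil ((TensorProduct.mk ℂ (AP A) (AP A)).compr₂ (coord A).toLinearMap)
  universal := by
    intro Z _ _ _ β
    let β' : AP A →ₗ[ℂ] AP A →ₗ[ℂ] Z :=
      LinearMap.mk₂ ℂ (fun a b => β a b) (by simp) (by simp) (by simp) (by simp)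
    refine ⟨LinearMap.toContinuousLinearMap
      ((TensorProduct.lift β') ∘ₗ (coord A).symm.toLinearMap), ?_, ?_⟩
    · intro a b
      simp [bil_apply, β']
    · intro ψ hψ
      have key : (ψ.toLinearMap ∘ₗ (coord A).toLinearMap) = TensorProduct.lift β' := by
        apply TensorProduct.ext'
        intro a b
        have := hψ a b
        simpa [bil_apply, β'] using this
      ext1 x
      obtain ⟨t, rfl⟩ := (coord A).surjective x
      have := DFunLike.congr_fun key t
      simpa using this
  mul := bil (LinearMap.mk₂ ℂ (fun x y => coord A (envMul A ((coord A).symm x)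
      ((coord A).symm y))) (by intros; simp) (by intros; simp) (by intros; simp)
      (by intros; simp))
  mul_tmul := by
    intro a b c d
    simp [bil_apply, envMul_tmul]
  proj := LinearMap.toContinuousLinearMap
    ((TensorProduct.lift (mulPlus A)) ∘ₗ (coord A).symm.toLinearMap)
  proj_tmul := by
    intro a b
    simp [bil_apply, mulPlus_apply]

end FiniteDimensional

section Example

/-- The algebra of `2 × 2` matrices over the dual numbers `ℂ[ε]/(ε²)`. -/
abbrev M2 : Type := Matrix (Fin 2) (Fin 2) (DualNumber ℂ)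

attribute [local instance] Matrix.linftyOpNormedRing Matrix.linftyOpNormedAlgebra

instance : FiniteDimensional ℂ (DualNumber ℂ) :=
  inferInstanceAs (FiniteDimensional ℂ (ℂ × ℂ))

/-- The bilinear form of the derivation `a ↦ (b ↦ τ (tr (d a b)))` with `d ε = ε`. -/
def derForm : M2 →ₗ[ℂ] M2 →ₗ[ℂ] ℂ :=
  LinearMap.mk₂ ℂ (fun a b => ∑ i, ∑ j, (a i j).snd * (b j i).fst)
    (by intro a b c; simp [add_mul]; ring) (by intro c a b; simp; ring)
    (by intro a b c; simp [mul_add]; ring) (by intro c a b; simp; ring)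

lemma isBoundedBilinearMap_bil {X : Type} [NonUnitalNormedRing X] [NormedSpace ℂ X]
    [FiniteDimensional ℂ X] (f : X →ₗ[ℂ] X →ₗ[ℂ] ℂ) :
    IsBoundedBilinearMap ℂ (fun p : X × X => bil f p.1 p.2) :=
  (bil f).isBoundedBilinearMap

theorem not_weaklyAmenable : ¬ WeaklyAmenable M2 := by
  intro h
  obtain ⟨f, -, hf⟩ := h (fun a b => bil derForm a b) (isBoundedBilinearMap_bil derForm) (by
    intro a b c
    simp [bil_apply, derForm, Matrix.mul_apply]
    ring)
  have h1 := hf ((algebraMap (DualNumber ℂ) M2) DualNumber.eps) 1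
  simp [bil_apply, derForm, Matrix.algebraMap_matrix_apply] at h1

/-- There is a Banach algebra (unital and finite-dimensional, namely `M₂(ℂ[ε]/(ε²))`) whose
enveloping algebra exists, whose diagonal ideal is idempotent, and which is not weakly
amenable.  So the criterion weakly amenable iff `I^Δ` idempotent fails in general. -/
theorem result : ∃ (A : Type) (_ : NormedRing A) (_ : NormedAlgebra ℂ A)
    (_ : CompleteSpace A), FiniteDimensional ℂ A ∧ Nonempty (Env A) ∧
      (∀ M : Env A, M.DiagonalIdempotent) ∧ ¬ WeaklyAmenable A := by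
  refine ⟨M2, inferInstance, inferInstance, inferInstance, inferInstance,
    ⟨(envOfFinite M2).toEnv⟩, ?_, not_weaklyAmenable⟩
  intro M
  apply M.idempotent_of_toL
  apply idempotent_of_matrix_units (fun i j => Matrix.single i j 1)
  · intro i j k l
    split_ifs with hjk
    · subst hjk; simp
    · simp [hjk]
  · ext i j <;> fin_cases i <;> fin_cases j <;> simp [Matrix.single]

end Example

end

end Pool.Agent.Results.MP_ae31bd_an.Disproof
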